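import Pool.Agent.Helper29.SH.Goals

/-!
# SH-TPR
-/

set_option autoImplicit false

namespace Pool.Agent.Helper31.SH

open Subgroup Pool.H83Shunkov Pool.Agent.Helper29.SH

theorem t_TPR : S_TPR := by
  classical
  intro G V _ _ T hT hA hN U hU
  obtain ⟨v, hv⟩ := helly hT U (fun u => {v : V | u • v = v}) (fun u _ => conv_fix hT hA u)
    (by
      intro x hx y hy
      have hpx := hU x hx
      have hpy := hU y hy
      have hfin : ((closure ({x, y * x * y⁻¹} : Set G) : Subgroup G) : Set G).Finite := by
        have h := hpx y⁻¹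
        rwa [inv_inv] at h
      have m1 : x ∈ closure ({x, y * x * y⁻¹} : Set G) := subset_closure (by simp)
      have m2 : y * x * y⁻¹ ∈ closure ({x, y * x * y⁻¹} : Set G) := subset_closure (by simp)
      have hmem : ∀ u ∈ ({x, y * x * y⁻¹} : Finset G), u ∈ closure ({x, y * x * y⁻¹} : Set G) := by
        intro u hu
        rcases Finset.mem_insert.1 hu with rfl | hu
        · exact m1
        · rw [Finset.mem_singleton.1 hu]
          exact m2
      obtain ⟨w, hw⟩ := common_fixed_finset hT hA hN ({x, y * x * y⁻¹} : Finset G)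
        (fun u hu => isOfFinOrder_of_mem_finite hfin (hmem u hu))
        (fun u hu u' hu' => isOfFinOrder_of_mem_finite hfin
          (mul_mem (inv_mem (hmem u hu)) (hmem u' hu')))
      have hw1 : x • w = w := hw x (by simp)
      have hw2 : (y * x * y⁻¹) • w = w := hw (y * x * y⁻¹) (by simp)
      have hw3 : x • (y⁻¹ • w) = y⁻¹ • w := by
        rw [mul_smul, mul_smul] at hw2
        rw [eq_inv_smul_iff]
        exact hw2
      obtain ⟨f, hf⟩ := exists_fixed hT hA hN (hpy.isOfFinOrder.inv)
      obtain ⟨m, hm1, hm2, -⟩ := midpoint_fixed hT hA hf w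
      refine ⟨m, ?_, ?_⟩
      · exact conv_fix hT hA x w hw1 (y⁻¹ • w) hw3 m hm2
      · have h := hm1
        rw [inv_smul_eq_iff] at h
        exact h.symm)
  exact ⟨v, hv⟩

end Pool.Agent.Helper31.SH
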